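import Pool.Agent.W710.DP.Stm1

/-!
# Local Lipschitz estimate of the functional of a word
-/

set_option autoImplicit false

namespace Pool.Agent.W636.DP

open Pool.Agent.W710.DP

lemma loc_letter (b T e : ℝ) (hP : Par b T e) (l : Letter) (hl : Good T e l) :
    ∃ L : ℝ, 0 ≤ L ∧ ∀ x s x' s' : ℝ, 0 ≤ s → s ≤ T → 0 ≤ s' → s' ≤ T →
      |l.G x s - l.G x' s'| ≤ L * (|x - x'| + |s - s'|) := by
  obtain ⟨he, hb, hT⟩ := hP
  obtain ⟨K, hK, hlip⟩ := hl.lip
  have hTp : 0 < T := by linarith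
  have hKT : 0 ≤ K * (T + e) := by positivity
  refine ⟨e / 4 + K * (T + e), by linarith, ?_⟩
  intro x s x' s' h1 h2 h3 h4
  have a1 : |l.G x s - l.G x' s| ≤ e / 4 * |x - x'| := by
    have := convex_univ.norm_image_sub_le_of_norm_hasDerivWithin_le
      (f := fun y => l.G y s) (f' := fun y => l.gx y s) (C := e / 4) (x := x') (y := x)
      (fun y _ => (hl.dx y s).hasDerivWithinAt) (fun y _ => (hl.small y s).2)
      (Set.mem_univ _) (Set.mem_univ _)
    simpa [Real.norm_eq_abs] using this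
  have a2 : |l.G x' s - l.G x' s'| ≤ K * (T + e) * |s - s'| := by
    have := (convex_Icc (0 : ℝ) T).norm_image_sub_le_of_norm_hasDerivWithin_le
      (f := fun y => l.G x' y) (f' := fun y => l.gs x' y) (C := K * (T + e)) (x := s') (y := s)
      (fun y _ => (hl.ds x' y).hasDerivWithinAt) (fun y hy => by
        have z := (hl.zero x' e (Or.inl le_rfl)).2.2
        have q := (hlip x' y x' e).2
        rw [z, sub_zero, sub_self, abs_zero, zero_add] at q
        rw [Real.norm_eq_abs]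
        refine q.trans (mul_le_mul_of_nonneg_left ?_ hK)
        rw [abs_le]
        constructor <;> linarith [hy.1, hy.2])
      ⟨h3, h4⟩ ⟨h1, h2⟩
    simpa [Real.norm_eq_abs] using this
  have a3 : l.G x s - l.G x' s' = (l.G x s - l.G x' s) + (l.G x' s - l.G x' s') := by ring
  rw [a3]
  refine (abs_add_le _ _).trans ?_
  have b1 := abs_nonneg (x - x')
  have b2 := abs_nonneg (s - s')
  nlinarith [mul_nonneg hKT b1, mul_nonneg he.le b2]

theorem t_loc : S_loc := by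
  intro b T e w hP
  induction w with
  | nil =>
    intro _ Y _
    refine ⟨0, le_rfl, ?_⟩
    intro ζ η ε _ _ _ _ _ _
    simp [Sw]
  | cons l w ih =>
    intro hw Y hY
    obtain ⟨L, hL, h⟩ := ih (fun a ha => hw a (List.mem_cons_of_mem _ ha)) Y hY
    obtain ⟨L', hL', h'⟩ := loc_letter b T e hP l (hw l (List.mem_cons_self))
    obtain ⟨he, hb, hT⟩ := hP
    refine ⟨Y + T * 2 + L' * 2 + L, by linarith, ?_⟩
    intro ζ η ε hε oζ oη dζ dη hc
    have oz0 := oζ 0 (by simp)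
    have oe0 := oη 0 (by simp)
    have dz0 := dζ 0 (by simp)
    have c0 := hc.1 0 (by simp)
    have c1 := hc.1 1 (by simp)
    have s0 := hc.2 0 (by simp)
    have key := h (shc 1 ζ) (shc 1 η) ε hε (fun i hi => oζ (i + 1) (by simpa using hi))
      (fun i hi => oη (i + 1) (by simpa using hi)) (fun i hi => dζ (i + 1) (by simpa using hi))
      (fun i hi => dη (i + 1) (by simpa using hi))
      ⟨fun i hi => hc.1 (i + 1) (by simpa using hi), fun i hi => hc.2 (i + 1) (by simpa using hi)⟩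
    have g := h' (ζ.1 0) (ζ.2 0) (η.1 0) (η.2 0) oz0.1 oz0.2 oe0.1 oe0.2
    have g' : |l.G (ζ.1 0) (ζ.2 0) - l.G (η.1 0) (η.2 0)| ≤ L' * 2 * ε := by
      refine g.trans ?_
      nlinarith
    have m1 : |(ζ.2 0 - b) * (ζ.1 1 - ζ.1 0) - (η.2 0 - b) * (η.1 1 - η.1 0)| ≤
        (Y + T * 2) * ε := by
      have e1 : (ζ.2 0 - b) * (ζ.1 1 - ζ.1 0) - (η.2 0 - b) * (η.1 1 - η.1 0) =
        (ζ.2 0 - η.2 0) * (ζ.1 1 - ζ.1 0) +
          (η.2 0 - b) * ((ζ.1 1 - η.1 1) - (ζ.1 0 - η.1 0)) := by ring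
      rw [e1]
      refine (abs_add_le _ _).trans ?_
      rw [abs_mul, abs_mul]
      have q1 : |ζ.2 0 - η.2 0| * |ζ.1 1 - ζ.1 0| ≤ ε * Y :=
        mul_le_mul s0 dz0 (abs_nonneg _) hε
      have q2 : |(ζ.1 1 - η.1 1) - (ζ.1 0 - η.1 0)| ≤ 2 * ε := by
        refine (abs_sub _ _).trans ?_
        linarith
      have q3 : |η.2 0 - b| ≤ T := by
        rw [abs_le]
        constructor <;> linarith [oe0.1, oe0.2]
      have q4 : |η.2 0 - b| * |(ζ.1 1 - η.1 1) - (ζ.1 0 - η.1 0)| ≤ T * (2 * ε) :=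
        mul_le_mul q3 q2 (abs_nonneg _) (by linarith)
      linarith
    have e2 : Sw b (l :: w) ζ - Sw b (l :: w) η =
        ((ζ.2 0 - b) * (ζ.1 1 - ζ.1 0) - (η.2 0 - b) * (η.1 1 - η.1 0)) -
        (l.G (ζ.1 0) (ζ.2 0) - l.G (η.1 0) (η.2 0)) +
        (Sw b w (shc 1 ζ) - Sw b w (shc 1 η)) := by
      simp only [Sw]; ring
    rw [e2]
    refine (abs_add_le _ _).trans ?_
    have e3 := abs_sub ((ζ.2 0 - b) * (ζ.1 1 - ζ.1 0) - (η.2 0 - b) * (η.1 1 - η.1 0))
      (l.G (ζ.1 0) (ζ.2 0) - l.G (η.1 0) (η.2 0))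
    linarith

end Pool.Agent.W636.DP
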